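import Pool.Agent.Helper31.LQ.Goals

/-!
# LQ-G2A (MP_6fb600_gt): a substitution
-/

open MeasureTheory Set
open scoped ENNReal Matrix
open Pool.Agent.Helper31.LQ

noncomputable section

namespace Pool.Agent.Helper3.LQ

theorem gG2A (hGRM : GRM) (hLMUL : LMUL) : Pool.Agent.Helper31.LQ.G2A := by
  intro n d hd hdn Q hQ Y hdet
  obtain ⟨R, hR, hRs⟩ := (hGRM n d Q hQ Y).1
  have hR0 : R.det ≠ 0 := by
    intro h
    apply hdet
    rw [hR, Matrix.det_mul, h, zero_mul]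
  have hRt : Rᵀ.det ≠ 0 := by rwa [Matrix.det_transpose]
  refine Eq.trans ?_ (hLMUL d d Rᵀ hRt fun g => ENNReal.ofReal (|(Matrix.of g).det| ^ (n - d) *
    Real.exp (-(∑ i, ∑ j, g i j ^ 2) / 2)))
  rw [hRs, hR, ← lintegral_mul_const' _ _ ENNReal.ofReal_ne_top]
  refine lintegral_congr fun g => ?_
  have e1 : (Matrix.of fun l : Fin d => Rᵀ *ᵥ g l) = Matrix.of g * R := by
    ext m c
    rw [Matrix.mul_apply]
    change (Rᵀ *ᵥ g m) c = _
    simp only [Matrix.mulVec, dotProduct, Matrix.transpose_apply, Matrix.of_apply]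
    exact Finset.sum_congr rfl fun _ _ => mul_comm _ _
  have e2 : (Matrix.of g * (R * Rᵀ) * (Matrix.of g)ᵀ).trace =
      ∑ i, ∑ j, (Rᵀ *ᵥ g i) j ^ 2 := by
    have h1 : Matrix.of g * (R * Rᵀ) * (Matrix.of g)ᵀ =
        (Matrix.of g * R) * (Matrix.of g * R)ᵀ := by
      rw [Matrix.transpose_mul]
      simp only [Matrix.mul_assoc]
    rw [h1, ← e1, Matrix.trace]
    refine Finset.sum_congr rfl fun i _ => ?_
    rw [Matrix.diag_apply, Matrix.mul_apply]
    refine Finset.sum_congr rfl fun j _ => ?_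
    rw [Matrix.transpose_apply, Matrix.of_apply, sq]
  have e3 : (-(Matrix.of g * (R * Rᵀ) * (Matrix.of g)ᵀ).trace / 2) =
      (-(∑ i, ∑ j, (Rᵀ *ᵥ g i) j ^ 2) / 2) := by rw [e2]
  rw [e1, e3, Matrix.det_mul, Matrix.det_transpose, abs_mul, mul_pow,
    ← ENNReal.ofReal_mul (by positivity)]
  congr 1
  have h3 : |R.det| ^ n = |R.det| ^ (n - d) * |R.det| ^ d := by
    rw [← pow_add, Nat.sub_add_cancel hdn]
  rw [h3]
  ring

end Pool.Agent.Helper3.LQ
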